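import Pool.Agent.W78.GM.Basic
import Pool.Agent.H970R2.X.Mom

/-!
Project GM, tasks N (and others): the Gaussian integers `gam n = ∏ gp p` over the prime factors of
`n`, contents of products, sums over lattice points.
-/

set_option autoImplicit false

namespace Pool.Agent.W45.GM

open Finset Filter
open Pool.Agent.H376R2.MR Pool.Agent.H970R2.X Pool.Agent.W78.GM

/-- the product of the chosen primes above the prime factors of `n` -/
noncomputable def gam (n : ℕ) : GaussianInt := (n.primeFactorsList.map gp).prod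

/-- all prime factors are `1 mod 4` -/
def Sm1 (n : ℕ) : Prop := ∀ p : ℕ, p.Prime → p ∣ n → p % 4 = 1

@[simp] lemma gam_one : gam 1 = 1 := by simp [gam]

lemma gam_prime {p : ℕ} (hp : p.Prime) : gam p = gp p := by
  simp [gam, Nat.primeFactorsList_prime hp]

lemma gam_mul {a b : ℕ} (ha : a ≠ 0) (hb : b ≠ 0) : gam (a * b) = gam a * gam b := by
  unfold gam
  rw [(List.Perm.map gp (Nat.perm_primeFactorsList_mul ha hb)).prod_eq, List.map_append,
    List.prod_append]

lemma Sm1.of_dvd {a b : ℕ} (h : Sm1 b) (hab : a ∣ b) : Sm1 a :=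
  fun p hp hpa => h p hp (hpa.trans hab)

lemma nm_gam {n : ℕ} (hn : n ≠ 0) (h : Sm1 n) : nm (gam n) = n := by
  induction n using induction_on_primes with
  | zero => exact absurd rfl hn
  | one => simp
  | prime_mul p a hp ih =>
    have ha : a ≠ 0 := by
      rintro rfl
      simp at hn
    rw [gam_mul hp.ne_zero ha, nm_mul, gam_prime hp, gp_nm hp (h p hp (Dvd.intro _ rfl)),
      ih ha (h.of_dvd (Dvd.intro_left _ rfl))]

lemma gam_ne_zero {n : ℕ} (hn : n ≠ 0) (h : Sm1 n) : gam n ≠ 0 := by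
  intro h0
  have := nm_gam hn h
  rw [h0, nm_zero] at this
  exact hn this.symm

lemma gam_prod {ι : Type*} (s : Finset ι) (f : ι → ℕ) (hf : ∀ i ∈ s, (f i).Prime) :
    gam (∏ i ∈ s, f i) = ∏ i ∈ s, gp (f i) := by
  classical
  induction s using Finset.induction_on with
  | empty => simp
  | insert a s ha ih =>
    rw [prod_insert ha, prod_insert ha, gam_mul (hf a (mem_insert_self a s)).ne_zero
      (prod_ne_zero_iff.2 fun i hi => (hf i (mem_insert_of_mem hi)).ne_zero),
      gam_prime (hf a (mem_insert_self a s)), ih fun i hi => hf i (mem_insert_of_mem hi)]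

/-- `gp p` is coprime to `star (gp q)` -/
lemma coprime_gp_star {p q : ℕ} (hp : p.Prime) (hq : q.Prime) (hp4 : p % 4 = 1) (hq4 : q % 4 = 1) :
    IsCoprime (gp p) (star (gp q)) := by
  have hirr := irreducible_of_nm hp (gp_nm hp hp4)
  rw [hirr.coprime_iff_not_dvd]
  intro hd
  by_cases hpq : p = q
  · subst hpq
    exact not_dvd_star hp (by omega) (gp_nm hp hp4) hd
  · have h1 := nm_dvd hd
    rw [nm_star, gp_nm hp hp4, gp_nm hq hq4] at h1
    exact hpq ((Nat.prime_dvd_prime_iff_eq hp hq).1 h1)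

lemma coprime_gam_star {m q : ℕ} (hm : m ≠ 0) (h : Sm1 m) (hq : q.Prime) (hq4 : q % 4 = 1) :
    IsCoprime (gam m) (star (gp q)) := by
  induction m using induction_on_primes with
  | zero => exact absurd rfl hm
  | one => rw [gam_one]; exact isCoprime_one_left
  | prime_mul p a hp ih =>
    have ha : a ≠ 0 := by
      rintro rfl
      simp at hm
    rw [gam_mul hp.ne_zero ha, gam_prime hp]
    exact (coprime_gp_star hp hq (h p hp (Dvd.intro _ rfl)) hq4).mul_left
      (ih ha (h.of_dvd (Dvd.intro_left _ rfl)))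

/-- the content of `gam n * z` -/
lemma content {n : ℕ} (hn : n ≠ 0) (h : Sm1 n) {z : GaussianInt} (hz : prim z) :
    ∃ (c m : ℕ) (u : GaussianInt), n = c * m ∧ prim u ∧ gam n * z = (c : GaussianInt) * u ∧
      gam m ∣ u := by
  induction n using induction_on_primes with
  | zero => exact absurd rfl hn
  | one => exact ⟨1, 1, z, by simp, hz, by simp, by simp⟩
  | prime_mul q a hq ih =>
    have ha : a ≠ 0 := by
      rintro rfl
      simp at hn
    have hq4 := h q hq (Dvd.intro _ rfl)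
    have ha4 : Sm1 a := h.of_dvd (Dvd.intro_left _ rfl)
    obtain ⟨c, m, u, h1, h2, h3, h4⟩ := ih ha ha4
    have hm0 : m ≠ 0 := by
      rintro rfl
      exact ha (by simpa using h1)
    have hm4 : Sm1 m := ha4.of_dvd (h1 ▸ Dvd.intro_left _ rfl)
    have h5 : gam (q * a) * z = gp q * ((c : GaussianInt) * u) := by
      rw [gam_mul hq.ne_zero ha, gam_prime hq, mul_assoc, h3]
    by_cases hd : star (gp q) ∣ u
    · obtain ⟨v, hv⟩ := hd
      refine ⟨c * q, m, v, ?_, prim_of_dvd h2 (hv ▸ Dvd.intro_left _ rfl), ?_, ?_⟩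
      · rw [h1]; ring
      · rw [h5, hv]
        have := mul_star_self' (gp q)
        rw [gp_nm hq hq4] at this
        push_cast
        rw [← this]
        ring
      · rw [hv] at h4
        exact (coprime_gam_star hm0 hm4 hq hq4).dvd_of_dvd_mul_left h4
    · refine ⟨c, q * m, gp q * u, ?_, (prim_mul_iff hq (by omega) (gp_nm hq hq4) h2).2 hd, ?_, ?_⟩
      · rw [h1]; ring
      · rw [h5]; ring
      · rw [gam_mul hq.ne_zero hm0, gam_prime hq]
        exact mul_dvd_mul_left _ h4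

/-- coprime norms give coprime elements -/
lemma coprime_of_nm {a b : GaussianInt} (h : Nat.Coprime (nm a) (nm b)) : IsCoprime a b := by
  have h4 : IsCoprime ((nm a : ℕ) : ℤ) ((nm b : ℕ) : ℤ) := Nat.isCoprime_iff_coprime.2 h
  obtain ⟨x, y, hxy⟩ := h4
  refine ⟨(x : GaussianInt) * star a, (y : GaussianInt) * star b, ?_⟩
  have h5 : ((x * ((nm a : ℕ) : ℤ) + y * ((nm b : ℕ) : ℤ) : ℤ) : GaussianInt) = 1 := by
    rw [hxy]; simp
  push_cast at h5
  rw [mul_assoc, mul_assoc, star_mul_self', star_mul_self']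
  exact h5

/-- common multiples -/
lemma gam_lcm_dvd {a b : ℕ} (ha : a ≠ 0) (hb : b ≠ 0) (h4a : Sm1 a) (h4b : Sm1 b) {z : GaussianInt}
    (h1 : gam a ∣ z) (h2 : gam b ∣ z) : gam (Nat.lcm a b) ∣ z := by
  obtain ⟨x, hx⟩ := Nat.gcd_dvd_left a b
  obtain ⟨y, hy⟩ := Nat.gcd_dvd_right a b
  set g := Nat.gcd a b with hg
  have hg0 : g ≠ 0 := by
    intro h0
    rw [h0, zero_mul] at hx
    exact ha hx
  have hx0 : x ≠ 0 := by
    rintro rfl
    exact ha (by simpa using hx)
  have hy0 : y ≠ 0 := by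
    rintro rfl
    exact hb (by simpa using hy)
  have hxy : Nat.Coprime x y := by
    have h := Nat.gcd_mul_left g x y
    rw [← hx, ← hy, ← hg] at h
    have : g * Nat.gcd x y = g * 1 := by rw [mul_one]; exact h.symm
    exact Nat.eq_of_mul_eq_mul_left (Nat.pos_of_ne_zero hg0) this
  have hl : Nat.lcm a b = g * (x * y) := by
    have := Nat.gcd_mul_lcm a b
    rw [← hg] at this
    have h2 : g * Nat.lcm a b = g * (g * (x * y)) := by
      rw [this]
      conv_lhs => rw [hx, hy]
      ring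
    exact Nat.eq_of_mul_eq_mul_left (Nat.pos_of_ne_zero hg0) h2
  have hg4 : Sm1 g := h4a.of_dvd (Nat.gcd_dvd_left a b)
  have hx4 : Sm1 x := h4a.of_dvd (hx ▸ Dvd.intro_left _ rfl)
  have hy4 : Sm1 y := h4b.of_dvd (hy ▸ Dvd.intro_left _ rfl)
  have hgne := gam_ne_zero hg0 hg4
  rw [hx, gam_mul hg0 hx0] at h1
  rw [hy, gam_mul hg0 hy0] at h2
  obtain ⟨t, ht⟩ := (Dvd.intro _ rfl : gam g ∣ gam g * gam x).trans h1
  rw [ht] at h1 h2
  have h1' := (mul_dvd_mul_iff_left hgne).1 h1
  have h2' := (mul_dvd_mul_iff_left hgne).1 h2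
  rw [hl, gam_mul hg0 (mul_ne_zero hx0 hy0), gam_mul hx0 hy0, ht]
  apply mul_dvd_mul_left
  apply IsCoprime.mul_dvd _ h1' h2'
  apply coprime_of_nm
  rw [nm_gam hx0 hx4, nm_gam hy0 hy4]
  exact hxy

/-! ### sums over lattice points -/

lemma lat_sum1 (hL : S_LAT) : ∃ C : ℝ, 0 < C ∧ ∀ (A B : ℝ) (s : Finset GaussianInt), 0 < A → A ≤ B →
    (∀ z ∈ s, z ≠ 0 ∧ A ≤ (nm z : ℝ) ∧ (nm z : ℝ) ≤ B) →
    ∑ z ∈ s, 1 / (nm z : ℝ) ≤ C * (1 + Real.log (B / A)) := by
  classical
  obtain ⟨C, hC, -, hann⟩ := hL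
  refine ⟨(ball 1).card + 4 + C + 4, by positivity, ?_⟩
  intro A B s hA hAB hs
  have hlog : 0 ≤ Real.log (B / A) := Real.log_nonneg (by rwa [le_div_iff₀ hA, one_mul])
  have hpi4 : Real.pi ≤ 4 := Real.pi_le_four
  set A₁ := max 1 (A / 2) with hA1
  have hA11 : 1 ≤ A₁ := le_max_left _ _
  by_cases hB : A₁ ≤ B
  · have hsub : s ⊆ ball 1 ∪ ann A₁ B := by
      intro z hz
      obtain ⟨h1, h2, h3⟩ := hs z hz
      have hz1 : 1 ≤ nm z := one_le_nm.2 h1
      rw [mem_union, mem_ball, mem_ann]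
      by_cases h4 : (nm z : ℝ) ≤ 1
      · exact Or.inl ⟨hz1, h4⟩
      · right
        push Not at h4
        exact ⟨hz1, max_lt h4 (by linarith), h3⟩
    have hB0 : 0 < B := by linarith
    calc ∑ z ∈ s, 1 / (nm z : ℝ) ≤ ∑ z ∈ ball 1 ∪ ann A₁ B, 1 / (nm z : ℝ) :=
          sum_le_sum_of_subset_of_nonneg hsub fun _ _ _ => by positivity
      _ ≤ ∑ z ∈ ball 1, 1 / (nm z : ℝ) + ∑ z ∈ ann A₁ B, 1 / (nm z : ℝ) := by
          rw [← sum_union_inter]
          have : 0 ≤ ∑ z ∈ ball 1 ∩ ann A₁ B, 1 / (nm z : ℝ) := sum_nonneg fun _ _ => by positivity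
          linarith
      _ ≤ (ball 1).card + (Real.pi * Real.log (B / A₁) + C / Real.sqrt A₁) := by
          apply add_le_add
          · calc ∑ z ∈ ball 1, 1 / (nm z : ℝ) ≤ ∑ z ∈ ball 1, (1 : ℝ) := by
                  apply sum_le_sum
                  intro z hz
                  have hz1 : (1 : ℝ) ≤ nm z := by exact_mod_cast (mem_ball.1 hz).1
                  rw [div_le_one (by linarith)]
                  exact hz1
              _ = _ := by simp
          · have := abs_le.1 (hann A₁ B hA11 hB)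
            linarith [this.2]
      _ ≤ (ball 1).card + (Real.pi * (Real.log (B / A) + 1) + C) := by
          have h1 : Real.log (B / A₁) ≤ Real.log (B / A) + 1 := by
            have h2 : Real.log (B / A₁) ≤ Real.log (B / (A / 2)) := by
              apply Real.log_le_log (by positivity)
              apply div_le_div_of_nonneg_left hB0.le (by positivity) (le_max_right _ _)
            have h3 : B / (A / 2) = B / A * 2 := by field_simp
            rw [h3, Real.log_mul (by positivity) two_ne_zero] at h2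
            have := Real.log_two_lt_d9
            linarith
          have h4 : C / Real.sqrt A₁ ≤ C := by
            apply div_le_self hC.le
            rw [Real.one_le_sqrt]
            exact hA11
          gcongr
      _ ≤ (ball 1).card + (4 * (Real.log (B / A) + 1) + C) := by gcongr
      _ ≤ ((ball 1).card + 4 + C + 4) * (1 + Real.log (B / A)) := by
          have h5 : 0 ≤ (((ball 1).card : ℝ) + C) * Real.log (B / A) := by positivity
          nlinarith
  · push Not at hB
    have hB1 : B < 1 := by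
      rw [hA1, lt_max_iff] at hB
      rcases hB with h | h
      · exact h
      · linarith
    have : s = ∅ := by
      apply eq_empty_of_forall_notMem
      intro z hz
      obtain ⟨h1, h2, h3⟩ := hs z hz
      have hz1 : (1 : ℝ) ≤ nm z := by exact_mod_cast one_le_nm.2 h1
      linarith
    rw [this, sum_empty]
    positivity

lemma lat_sum (hL : S_LAT) : ∃ C : ℝ, 0 < C ∧ ∀ (A B : ℝ) (D : GaussianInt) (s : Finset GaussianInt),
    0 < A → A ≤ B → D ≠ 0 →
    (∀ z ∈ s, z ≠ 0 ∧ D ∣ z ∧ A ≤ (nm z : ℝ) ∧ (nm z : ℝ) ≤ B) →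
    ∑ z ∈ s, 1 / (nm z : ℝ) ≤ 1 / (nm D : ℝ) * (C * (1 + Real.log (B / A))) := by
  classical
  obtain ⟨C, hC, h1⟩ := lat_sum1 hL
  refine ⟨C, hC, ?_⟩
  intro A B D s hA hAB hD hs
  have hD0 : (0 : ℝ) < nm D := nm_posR hD
  have hq : ∀ z : GaussianInt, ∃ q : GaussianInt, z ∈ s → z = D * q := by
    intro z
    by_cases hz : z ∈ s
    · obtain ⟨q, hq⟩ := (hs z hz).2.1
      exact ⟨q, fun _ => hq⟩
    · exact ⟨0, fun h => absurd h hz⟩
  choose q hq using hq
  have hinj : Set.InjOn q (s : Set GaussianInt) := by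
    intro a ha b hb hab
    rw [hq a ha, hq b hb, hab]
  have hsum : ∑ z ∈ s, 1 / (nm z : ℝ) = 1 / (nm D : ℝ) * ∑ z ∈ s.image q, 1 / (nm z : ℝ) := by
    rw [sum_image hinj, mul_sum]
    apply sum_congr rfl
    intro z hz
    conv_lhs => rw [hq z hz, nm_mul]
    push_cast
    rw [one_div_mul_one_div]
  rw [hsum]
  have hBA : B / A = (B / nm D) / (A / nm D) := by
    field_simp
  rw [hBA]
  apply mul_le_mul_of_nonneg_left _ (by positivity)
  apply h1 _ _ _ (by positivity) (by gcongr)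
  intro u hu
  obtain ⟨z, hz, rfl⟩ := mem_image.1 hu
  obtain ⟨h2, h3, h4, h5⟩ := hs z hz
  have h6 : (nm z : ℝ) = nm D * nm (q z) := by
    conv_lhs => rw [hq z hz, nm_mul]
    push_cast
    ring
  refine ⟨?_, ?_, ?_⟩
  · intro h0
    apply h2
    rw [hq z hz, h0, mul_zero]
  · rw [div_le_iff₀ hD0]
    linarith
  · rw [le_div_iff₀ hD0]
    linarith

/-- number of divisors of `N` whose `gam` divides `z` -/
noncomputable def tauG (N : ℕ) (z : GaussianInt) : ℕ :=
  open scoped Classical in (N.divisors.filter (fun m => gam m ∣ z)).card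

/-- second moment of the restricted divisor function -/
lemma tau_sum (hL : S_LAT) : ∃ C : ℝ, 0 < C ∧ ∀ (N : ℕ) (A B : ℝ) (s : Finset GaussianInt),
    N ≠ 0 → Sm1 N → 0 < A → A ≤ B → (∀ z ∈ s, z ≠ 0 ∧ A ≤ (nm z : ℝ) ∧ (nm z : ℝ) ≤ B) →
    ∑ z ∈ s, (tauG N z : ℝ) ^ 2 / (nm z : ℝ) ≤
      C * (1 + Real.log (B / A)) * (∑ d ∈ N.divisors, 1 / (d : ℝ)) ^ 3 := by
  classical
  obtain ⟨C, hC, h1⟩ := lat_sum hL
  refine ⟨C, hC, ?_⟩
  intro N A B s hN hN4 hA hAB hs
  have hlog : 0 ≤ Real.log (B / A) := Real.log_nonneg (by rwa [le_div_iff₀ hA, one_mul])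
  have hdiv0 : ∀ m ∈ N.divisors, m ≠ 0 ∧ Sm1 m := by
    intro m hm
    exact ⟨(Nat.pos_of_mem_divisors hm).ne', hN4.of_dvd (Nat.dvd_of_mem_divisors hm)⟩
  have hexp : ∀ z : GaussianInt, (tauG N z : ℝ) ^ 2 / (nm z : ℝ) ≤
      ∑ a ∈ N.divisors, ∑ b ∈ N.divisors,
        (if gam (Nat.lcm a b) ∣ z then 1 / (nm z : ℝ) else 0) := by
    intro z
    have hc : (tauG N z : ℝ) = ∑ a ∈ N.divisors, (if gam a ∣ z then (1 : ℝ) else 0) := by
      unfold tauG
      rw [card_filter]
      push_cast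
      rfl
    rw [hc, pow_two, sum_mul_sum, sum_div]
    apply sum_le_sum
    intro a ha
    rw [sum_div]
    apply sum_le_sum
    intro b hb
    by_cases hP : gam a ∣ z
    · by_cases hQ : gam b ∣ z
      · rw [if_pos hP, if_pos hQ, if_pos (gam_lcm_dvd (hdiv0 a ha).1 (hdiv0 b hb).1
          (hdiv0 a ha).2 (hdiv0 b hb).2 hP hQ)]
        simp
      · rw [if_neg hQ]
        simp only [mul_zero, zero_div]
        split_ifs <;> positivity
    · rw [if_neg hP]
      simp only [zero_mul, zero_div]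
      split_ifs <;> positivity
  calc ∑ z ∈ s, (tauG N z : ℝ) ^ 2 / (nm z : ℝ)
      ≤ ∑ z ∈ s, ∑ a ∈ N.divisors, ∑ b ∈ N.divisors,
        (if gam (Nat.lcm a b) ∣ z then 1 / (nm z : ℝ) else 0) := sum_le_sum fun z _ => hexp z
    _ = ∑ a ∈ N.divisors, ∑ b ∈ N.divisors, ∑ z ∈ s.filter (fun z => gam (Nat.lcm a b) ∣ z),
        1 / (nm z : ℝ) := by
        rw [sum_comm]
        apply sum_congr rfl
        intro a _
        rw [sum_comm]
        apply sum_congr rfl
        intro b _
        rw [sum_filter]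
    _ ≤ ∑ a ∈ N.divisors, ∑ b ∈ N.divisors,
        1 / ((Nat.lcm a b : ℕ) : ℝ) * (C * (1 + Real.log (B / A))) := by
        apply sum_le_sum
        intro a ha
        apply sum_le_sum
        intro b hb
        have hl0 : Nat.lcm a b ≠ 0 := Nat.lcm_ne_zero (hdiv0 a ha).1 (hdiv0 b hb).1
        have hl4 : Sm1 (Nat.lcm a b) := by
          apply hN4.of_dvd
          exact Nat.lcm_dvd (Nat.dvd_of_mem_divisors ha) (Nat.dvd_of_mem_divisors hb)
        have := h1 A B (gam (Nat.lcm a b)) (s.filter (fun z => gam (Nat.lcm a b) ∣ z)) hA hAB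
          (gam_ne_zero hl0 hl4) (by
            intro z hz
            rw [mem_filter] at hz
            obtain ⟨h2, h3, h4⟩ := hs z hz.1
            exact ⟨h2, hz.2, h3, h4⟩)
        rw [nm_gam hl0 hl4] at this
        exact this
    _ = (∑ a ∈ N.divisors, ∑ b ∈ N.divisors, 1 / ((Nat.lcm a b : ℕ) : ℝ)) *
        (C * (1 + Real.log (B / A))) := by
        rw [sum_mul]
        apply sum_congr rfl
        intro a _
        rw [sum_mul]
    _ ≤ (∑ d ∈ N.divisors, 1 / (d : ℝ)) ^ 3 * (C * (1 + Real.log (B / A))) := by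
        apply mul_le_mul_of_nonneg_right _ (by positivity)
        exact smoo_lcm_sum N hN N.divisors fun a ha => Nat.dvd_of_mem_divisors ha
    _ = _ := by ring

end Pool.Agent.W45.GM
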