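import Pool.Agent.W45.GM.Gam

/-!
Project GM, task N: mixed moments `∑ |PG^ℓ GA|^2`.
-/

set_option autoImplicit false

namespace Pool.Agent.W45.GM

open Finset Filter
open Pool.Agent.H376R2.MR Pool.Agent.H970R2.X Pool.Agent.W78.GM

lemma mem_cellG {H r p : ℕ} (hp : p ∈ cellP (P1 4) H r) :
    p ∈ cell H r ∧ p.Prime ∧ p % 4 = 1 := by
  classical
  unfold cellP at hp
  rw [mem_filter] at hp
  refine ⟨hp.1, (smoo_mem_cell hp.1).1, ?_⟩
  have := hp.2
  unfold P1 at this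
  simpa using this

lemma prod_sm1 {H r ℓ : ℕ} {p : Fin ℓ → ℕ}
    (hp : p ∈ Fintype.piFinset fun _ : Fin ℓ => cellP (P1 4) H r) : Sm1 (∏ i, p i) := by
  intro q hq hqd
  rw [Prime.dvd_finsetProd_iff hq.prime] at hqd
  obtain ⟨i, _, hi⟩ := hqd
  rw [Fintype.mem_piFinset] at hp
  obtain ⟨_, h1, h2⟩ := mem_cellG (hp i)
  rw [(Nat.prime_dvd_prime_iff_eq hq h1).1 hi]
  exact h2

theorem PG_pow (H r ℓ : ℕ) (k : ℤ) :
    PG H r k ^ ℓ = ∑ p ∈ Fintype.piFinset (fun _ : Fin ℓ => cellP (P1 4) H r),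
      ps k (gam (∏ i, p i)) / ((∏ i, p i : ℕ) : ℂ) := by
  unfold PG
  rw [Finset.sum_pow']
  apply Finset.sum_congr rfl
  intro p hp
  rw [Fintype.mem_piFinset] at hp
  rw [Finset.prod_div_distrib, gam_prod _ _ fun i _ => (mem_cellG (hp i)).2.1]
  congr 1
  · have : ∀ s : Finset (Fin ℓ), ∏ i ∈ s, ps k (gp (p i)) = ps k (∏ i ∈ s, gp (p i)) := by
      intro s
      induction s using Finset.cons_induction with
      | empty =>
        rw [prod_empty, prod_empty]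
        have := ps_natCast (c := 1) one_pos k
        simpa using this.symm
      | cons a s ha ih => rw [Finset.prod_cons, Finset.prod_cons, ps_mul, ih]
    exact this _
  · push_cast
    rfl

theorem bg_ne {Z : ℝ} (hZ : 0 < Z) {z : GaussianInt} (h : bg Z z ≠ 0) :
    z ≠ 0 ∧ Z / Real.exp 1 ≤ (nm z : ℝ) ∧ (nm z : ℝ) ≤ Real.exp 1 * Z := by
  unfold bg at h
  have h1 : (nm z : ℝ) ≠ 0 := by
    intro h0
    apply h
    rw [h0, div_zero]
  have h2 : w (Real.log (nm z) - Real.log Z) ≠ 0 := by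
    intro h0
    apply h
    rw [h0, zero_div]
  have h3 : |Real.log (nm z) - Real.log Z| ≤ 1 := by
    by_contra hc
    push Not at hc
    apply h2
    unfold w
    rw [max_eq_left]
    linarith
  have hpos : (0 : ℝ) < nm z := lt_of_le_of_ne (Nat.cast_nonneg _) (Ne.symm h1)
  rw [abs_le] at h3
  have he := Real.exp_pos 1
  refine ⟨?_, ?_, ?_⟩
  · rintro rfl
    simp at h1
  · rw [← Real.log_le_log_iff (by positivity) hpos, Real.log_div hZ.ne' he.ne', Real.log_exp]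
    linarith [h3.1]
  · rw [← Real.log_le_log_iff hpos (by positivity), Real.log_mul he.ne' hZ.ne', Real.log_exp]
    linarith [h3.2]

theorem coef_norm {g : GaussianInt → ℤ} (hb : BddG g) (Z : ℝ) (z : GaussianInt) :
    ‖(g z : ℂ) * (bg Z z : ℂ)‖ ≤ 1 / nm z := by
  have h1 : ‖(g z : ℂ)‖ ≤ 1 := by
    have h := hb z
    rw [Complex.norm_intCast]
    exact_mod_cast h
  have h2 : 0 ≤ bg Z z := by
    unfold bg
    have := mom_w_nonneg (Real.log (nm z) - Real.log Z)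
    positivity
  have h3 : bg Z z ≤ 1 / nm z := by
    unfold bg
    have := mom_w_le_one (Real.log (nm z) - Real.log Z)
    gcongr
  rw [norm_mul, Complex.norm_real, Real.norm_of_nonneg h2]
  calc ‖(g z : ℂ)‖ * bg Z z ≤ 1 * bg Z z := mul_le_mul_of_nonneg_right h1 h2
    _ = bg Z z := one_mul _
    _ ≤ _ := h3

/-- the support of the window coefficients -/
noncomputable def SG (Z : ℝ) : Finset GaussianInt :=
  (pball (Real.exp 1 * Z)).filter (fun z => bg Z z ≠ 0)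

theorem mem_SG {Z : ℝ} (hZ : 0 < Z) {z : GaussianInt} (h : z ∈ SG Z) :
    prim z ∧ Z / Real.exp 1 ≤ (nm z : ℝ) ∧ (nm z : ℝ) ≤ Real.exp 1 * Z := by
  unfold SG at h
  rw [mem_filter, mem_pball] at h
  exact ⟨h.1.1, (bg_ne hZ h.2).2⟩

theorem GA_filter (g : GaussianInt → ℤ) (Z : ℝ) (k : ℤ) :
    GA g Z k = ∑ z ∈ SG Z, (g z : ℂ) * (bg Z z : ℂ) * ps k z := by
  unfold GA DPG SG
  rw [Finset.sum_filter_of_ne]
  intro n _ hn h0
  apply hn
  rw [h0]
  simp

/-- index pairs -/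
noncomputable def PrG (H r ℓ : ℕ) (Z : ℝ) : Finset ((Fin ℓ → ℕ) × GaussianInt) :=
  (Fintype.piFinset (fun _ : Fin ℓ => cellP (P1 4) H r)) ×ˢ SG Z

/-- coefficient of an index pair -/
noncomputable def cfG (g : GaussianInt → ℤ) (ℓ : ℕ) (Z : ℝ) (x : (Fin ℓ → ℕ) × GaussianInt) : ℂ :=
  ((g x.2 : ℂ) * (bg Z x.2 : ℂ)) / ((∏ i, x.1 i : ℕ) : ℂ)

theorem prod_expand (g : GaussianInt → ℤ) (H r ℓ : ℕ) (Z : ℝ) (k : ℤ) :
    PG H r k ^ ℓ * GA g Z k =
      ∑ x ∈ PrG H r ℓ Z, cfG g ℓ Z x * ps k (gam (∏ i, x.1 i) * x.2) := by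
  rw [PG_pow, GA_filter, Finset.sum_mul_sum, ← Finset.sum_product']
  apply Finset.sum_congr rfl
  intro x _
  unfold cfG
  rw [ps_mul]
  ring

/-- the pairs giving the Gaussian integer `c * u` with content `c`: their number -/
theorem count_pairs {H r ℓ : ℕ} {Z : ℝ} {N : ℕ}
    (hN : N ≠ 0) (hdvd : ∀ p ∈ Fintype.piFinset (fun _ : Fin ℓ => cellP (P1 4) H r),
      (∏ i, p i) ∣ N)
    (cf mf : (Fin ℓ → ℕ) × GaussianInt → ℕ) (uf : (Fin ℓ → ℕ) × GaussianInt → GaussianInt)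
    (hf : ∀ x ∈ PrG H r ℓ Z, (∏ i, x.1 i) = cf x * mf x ∧ prim (uf x) ∧
      gam (∏ i, x.1 i) * x.2 = (cf x : GaussianInt) * uf x ∧ gam (mf x) ∣ uf x)
    (c : ℕ) (u : GaussianInt) :
    (((PrG H r ℓ Z).filter (fun x => cf x = c)).filter (fun x => uf x = u)).card ≤
      ℓ.factorial * tauG N u := by
  classical
  set S := ((PrG H r ℓ Z).filter (fun x => cf x = c)).filter (fun x => uf x = u) with hS
  set T := Fintype.piFinset (fun _ : Fin ℓ => cellP (P1 4) H r) with hT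
  have hmemS : ∀ x ∈ S, x ∈ PrG H r ℓ Z ∧ cf x = c ∧ uf x = u := by
    intro x hx
    rw [hS, mem_filter, mem_filter] at hx
    exact ⟨hx.1.1, hx.1.2, hx.2⟩
  have hpos : ∀ p ∈ T, (∏ i, p i) ≠ 0 := fun p hp => by
    intro h0
    have := hdvd p hp
    rw [h0, zero_dvd_iff] at this
    exact hN this
  -- split according to `m`
  have hmaps : ∀ x ∈ S, mf x ∈ N.divisors.filter (fun m => gam m ∣ u) := by
    intro x hx
    obtain ⟨h1, h2, h3⟩ := hmemS x hx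
    obtain ⟨h4, h5, h6, h7⟩ := hf x h1
    unfold PrG at h1
    rw [mem_product] at h1
    rw [mem_filter, Nat.mem_divisors]
    refine ⟨⟨?_, hN⟩, ?_⟩
    · exact (Dvd.intro_left _ h4.symm).trans (hdvd _ h1.1)
    · rw [← h3]; exact h7
  have hcard := card_eq_sum_card_fiberwise (f := mf) (s := S) hmaps
  rw [hcard]
  calc ∑ m ∈ N.divisors.filter (fun m => gam m ∣ u), (S.filter (fun x => mf x = m)).card
      ≤ ∑ m ∈ N.divisors.filter (fun m => gam m ∣ u), ℓ.factorial := by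
        apply sum_le_sum
        intro m _
        refine le_trans ?_ (smoo_ge_le (cellP (P1 4) H r) (fun p hp => (mem_cellG hp).2.1) ℓ (c * m))
        unfold ge
        apply card_le_card_of_injOn (fun x => x.1)
        · intro x hx
          rw [mem_coe, mem_filter] at hx
          obtain ⟨h1, h2, h3⟩ := hmemS x hx.1
          obtain ⟨h4, h5, h6, h7⟩ := hf x h1
          unfold PrG at h1
          rw [mem_product] at h1
          rw [mem_coe, mem_filter]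
          refine ⟨h1.1, ?_⟩
          rw [h4, h2, hx.2]
        · intro x hx y hy hxy
          rw [mem_coe, mem_filter] at hx hy
          obtain ⟨h1, h2, h3⟩ := hmemS x hx.1
          obtain ⟨h4, h5, h6, h7⟩ := hf x h1
          obtain ⟨k1, k2, k3⟩ := hmemS y hy.1
          obtain ⟨k4, k5, k6, k7⟩ := hf y k1
          have hxy' : x.1 = y.1 := hxy
          apply Prod.ext hxy'
          rw [← hxy', k2, k3, ← h2, ← h3, ← h6] at k6
          unfold PrG at h1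
          rw [mem_product] at h1
          have hg : gam (∏ i, x.1 i) ≠ 0 := gam_ne_zero (hpos _ h1.1) (prod_sm1 h1.1)
          exact (mul_left_cancel₀ hg k6).symm
    _ = ℓ.factorial * tauG N u := by
        rw [sum_const, smul_eq_mul, mul_comm]
        unfold tauG
        rfl

theorem cs_div (D : Finset ℕ) (hD : ∀ c ∈ D, 0 < c) (F : ℕ → ℂ) :
    ‖∑ c ∈ D, F c‖ ^ 2 ≤ (∑ c ∈ D, 1 / (c : ℝ)) * ∑ c ∈ D, (c : ℝ) * ‖F c‖ ^ 2 := by
  refine le_trans (pow_le_pow_left₀ (norm_nonneg _) (norm_sum_le _ _) 2) ?_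
  apply Finset.sum_sq_le_sum_mul_sum_of_sq_le_mul
  · intro c _; positivity
  · intro c _; positivity
  · intro c hc
    have hcpos : 0 < (c : ℝ) := by exact_mod_cast hD c hc
    apply le_of_eq
    field_simp

theorem mom_of (hLS : S_LS) (hLAT : S_LAT) : S_MOM := by
  classical
  intro g hb
  obtain ⟨C₁, hC₁, hls⟩ := hLS
  obtain ⟨C₂, hC₂, htau⟩ := tau_sum hLAT
  -- the constant
  set B₀ : ℝ := C₁ * C₂ * Real.exp 4 ^ 5 * 2 * Real.exp 2 * 3 with hB0
  set C : ℝ := max 1 (max B₀ (2 * Real.exp 1)) with hCdef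
  have hC1 : 1 ≤ C := le_max_left _ _
  have hCB : B₀ ≤ C := (le_max_left _ _).trans (le_max_right _ _)
  have hCe : 2 * Real.exp 1 ≤ C := (le_max_right _ _).trans (le_max_right _ _)
  refine ⟨C, hC1, ?_⟩
  intro H r ℓ K Z hH hZ hK hKe
  set e := Real.exp 1 with he
  have he0 : 0 < e := Real.exp_pos 1
  have he3 : e < 3 := Real.exp_one_lt_three
  have he1 : 1 ≤ e := Real.one_le_exp zero_le_one
  have hZ0 : 0 < Z := by linarith
  have hHpos : (0 : ℝ) < H := by exact_mod_cast hH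
  have hH1 : (1 : ℝ) ≤ H := by exact_mod_cast hH
  set A : ℝ := Real.exp ((r : ℝ) * ℓ / H) with hA
  set B : ℝ := Real.exp (((r : ℝ) + 1) * ℓ / H) with hB
  have hA1 : (1 : ℝ) ≤ A := Real.one_le_exp (by positivity)
  have hAB : A ≤ B := by
    apply Real.exp_le_exp.2
    gcongr
    linarith
  have hA0 : 0 < A := by linarith
  have hB0' : 0 < B := by linarith
  have hBA : B = A * Real.exp ((ℓ : ℝ) / H) := by
    rw [hA, hB, ← Real.exp_add]
    congr 1
    ring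
  set M₀ : ℝ := Z / e * A with hM0
  set M₁ : ℝ := e * Z * B with hM1
  have hZe : (1 : ℝ) ≤ Z / e := by
    rw [le_div_iff₀ he0]
    linarith
  have hM0p : 0 < M₀ := by positivity
  have hM01 : 1 ≤ M₀ := by nlinarith
  have hM1eq : M₁ = M₀ * (e ^ 2 * Real.exp ((ℓ : ℝ) / H)) := by
    rw [hM1, hM0, hBA]
    field_simp
  have hfac : 1 ≤ e ^ 2 * Real.exp ((ℓ : ℝ) / H) := by
    have h1 : 1 ≤ e ^ 2 := one_le_pow₀ he1
    have h2 : 1 ≤ Real.exp ((ℓ : ℝ) / H) := Real.one_le_exp (by positivity)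
    nlinarith
  have hM0M1 : M₀ ≤ M₁ := by
    rw [hM1eq]
    nlinarith
  have hM11 : 1 ≤ M₁ := hM01.trans hM0M1
  have hKM : (K : ℝ) ≤ e * M₀ := by
    calc (K : ℝ) ≤ Z * A := hKe
      _ = e * (Z / e * A) := by field_simp
  -- the modulus
  set N : ℕ := (∏ p ∈ cellP (P1 4) H r, p) ^ ℓ with hN
  have hprime : ∀ p ∈ cellP (P1 4) H r, p.Prime := fun p hp => (mem_cellG hp).2.1
  have hN0 : N ≠ 0 := pow_ne_zero _ (prod_ne_zero_iff.mpr fun p hp => (hprime p hp).ne_zero)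
  have hN4 : Sm1 N := by
    intro q hq hqd
    have h1 := hq.dvd_of_dvd_pow hqd
    rw [Prime.dvd_finsetProd_iff hq.prime] at h1
    obtain ⟨p, hp, hqp⟩ := h1
    rw [(Nat.prime_dvd_prime_iff_eq hq (hprime p hp)).1 hqp]
    exact (mem_cellG hp).2.2
  have hdvd : ∀ p ∈ Fintype.piFinset (fun _ : Fin ℓ => cellP (P1 4) H r), (∏ i, p i) ∣ N :=
    fun p hp => smoo_prod_dvd _ _ (Fintype.mem_piFinset.mp hp)
  have hsig : ∑ d ∈ N.divisors, 1 / (d : ℝ) ≤ Real.exp 4 := by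
    refine le_trans (smoo_sigma_cell _ hprime ℓ) (Real.exp_le_exp.mpr ?_)
    have := mmp_le (P1 4) H r hH
    unfold mmp at this
    linarith
  have hsig0 : 0 ≤ ∑ d ∈ N.divisors, 1 / (d : ℝ) := sum_nonneg fun _ _ => by positivity
  -- contents
  have hcont : ∀ x : (Fin ℓ → ℕ) × GaussianInt, ∃ (c m : ℕ) (u : GaussianInt), x ∈ PrG H r ℓ Z →
      (∏ i, x.1 i) = c * m ∧ prim u ∧ gam (∏ i, x.1 i) * x.2 = (c : GaussianInt) * u ∧ gam m ∣ u := by
    intro x
    by_cases hx : x ∈ PrG H r ℓ Z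
    · have hx' := hx
      unfold PrG at hx'
      rw [mem_product] at hx'
      have h0 : (∏ i, x.1 i) ≠ 0 := by
        intro h0
        have := hdvd _ hx'.1
        rw [h0, zero_dvd_iff] at this
        exact hN0 this
      obtain ⟨c, m, u, h⟩ := content h0 (prod_sm1 hx'.1) (mem_SG hZ0 hx'.2).1
      exact ⟨c, m, u, fun _ => h⟩
    · exact ⟨0, 0, 0, fun h => absurd h hx⟩
  choose cf mf uf hf using hcont
  -- numerical facts for an index pair
  have hnum : ∀ x ∈ PrG H r ℓ Z, 0 < ((∏ i, x.1 i : ℕ) : ℝ) ∧ 0 < (nm x.2 : ℝ) ∧ 0 < (cf x : ℝ) ∧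
      ((∏ i, x.1 i : ℕ) : ℝ) * nm x.2 = (cf x : ℝ) ^ 2 * nm (uf x) ∧
      M₀ ≤ (cf x : ℝ) ^ 2 * nm (uf x) ∧ (cf x : ℝ) ^ 2 * nm (uf x) ≤ M₁ := by
    intro x hx
    obtain ⟨h1, h2, h3, h4⟩ := hf x hx
    have hx' := hx
    unfold PrG at hx'
    rw [mem_product] at hx'
    obtain ⟨h5, h6, h7⟩ := mem_SG hZ0 hx'.2
    have h0 : (∏ i, x.1 i) ≠ 0 := by
      intro h0
      have := hdvd _ hx'.1
      rw [h0, zero_dvd_iff] at this
      exact hN0 this
    have hP : (0 : ℝ) < ((∏ i, x.1 i : ℕ) : ℝ) := by exact_mod_cast Nat.pos_of_ne_zero h0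
    have hz : (0 : ℝ) < nm x.2 := nm_posR (prim_ne_zero h5)
    have hc : 0 < (cf x : ℝ) := by
      have : cf x ≠ 0 := by
        intro hc0
        rw [hc0, zero_mul] at h1
        exact h0 h1
      exact_mod_cast Nat.pos_of_ne_zero this
    have hid : ((∏ i, x.1 i : ℕ) : ℝ) * nm x.2 = (cf x : ℝ) ^ 2 * nm (uf x) := by
      have := congrArg nm h3
      rw [nm_mul, nm_mul, nm_natCast, nm_gam h0 (prod_sm1 hx'.1)] at this
      exact_mod_cast this
    have hlogs := mom_prod_log (xmom_pi_sub (P1 4) H r ℓ hx'.1)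
    have hPA : A ≤ ((∏ i, x.1 i : ℕ) : ℝ) := by
      rw [hA, ← Real.le_log_iff_exp_le hP]
      exact hlogs.1
    have hPB : ((∏ i, x.1 i : ℕ) : ℝ) ≤ B := by
      rw [hB, ← Real.log_le_iff_le_exp hP]
      exact hlogs.2
    refine ⟨hP, hz, hc, hid, ?_, ?_⟩
    · rw [← hid, hM0]
      calc Z / e * A ≤ nm x.2 * ((∏ i, x.1 i : ℕ) : ℝ) := by gcongr
        _ = _ := by ring
    · rw [← hid, hM1]
      calc ((∏ i, x.1 i : ℕ) : ℝ) * nm x.2 ≤ B * (e * Z) := by gcongr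
        _ = _ := by ring
  -- the pieces
  set Pc : ℕ → Finset ((Fin ℓ → ℕ) × GaussianInt) :=
    fun c => (PrG H r ℓ Z).filter (fun x => cf x = c) with hPc
  set tc : ℕ → Finset GaussianInt := fun c => (Pc c).image uf with htc
  set bc : ℕ → GaussianInt → ℂ := fun c u => ∑ x ∈ (Pc c).filter (fun x => uf x = u), cfG g ℓ Z x
    with hbc
  have hpieces : ∀ k : ℤ, PG H r k ^ ℓ * GA g Z k = ∑ c ∈ N.divisors, DPG (tc c) (bc c) k := by
    intro k
    rw [prod_expand]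
    have hmaps : ∀ x ∈ PrG H r ℓ Z, cf x ∈ N.divisors := by
      intro x hx
      obtain ⟨h1, h2, h3, h4⟩ := hf x hx
      have hx' := hx
      unfold PrG at hx'
      rw [mem_product] at hx'
      rw [Nat.mem_divisors]
      exact ⟨(Dvd.intro _ h1.symm).trans (hdvd _ hx'.1), hN0⟩
    rw [← sum_fiberwise_of_maps_to hmaps]
    apply sum_congr rfl
    intro c _
    unfold DPG
    rw [← sum_fiberwise_of_maps_to (s := (PrG H r ℓ Z).filter (fun x => cf x = c)) (t := tc c)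
      (g := uf) (fun x hx => mem_image_of_mem _ hx)]
    apply sum_congr rfl
    intro u _
    rw [hbc]
    simp only [sum_mul]
    apply sum_congr rfl
    intro x hx
    rw [mem_filter, mem_filter] at hx
    obtain ⟨⟨hx1, hx2⟩, hx3⟩ := hx
    obtain ⟨h1, h2, h3, h4⟩ := hf x hx1
    have hc0 : 0 < cf x := by exact_mod_cast (hnum x hx1).2.2.1
    rw [h3, ps_natCast_mul hc0, hx3]
  have hmem : ∀ c, ∀ u ∈ tc c, 0 < (c : ℝ) ∧ prim u ∧ M₀ ≤ (c : ℝ) ^ 2 * nm u ∧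
      (c : ℝ) ^ 2 * nm u ≤ M₁ := by
    intro c u hu
    rw [htc] at hu
    obtain ⟨x, hx, rfl⟩ := mem_image.1 hu
    rw [hPc, mem_filter] at hx
    obtain ⟨hx1, rfl⟩ := hx
    obtain ⟨n1, n2, n3, n4, n5, n6⟩ := hnum x hx1
    exact ⟨n3, (hf x hx1).2.1, n5, n6⟩
  -- coefficients
  have hcoef : ∀ c, ∀ u ∈ tc c, ‖bc c u‖ ≤ (ℓ.factorial : ℝ) * tauG N u / ((c : ℝ) ^ 2 * nm u) := by
    intro c u hu
    obtain ⟨m1, m2, m3, m4⟩ := hmem c u hu
    have hden : 0 < (c : ℝ) ^ 2 * nm u := lt_of_lt_of_le hM0p m3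
    have hcount := count_pairs (H := H) (r := r) (ℓ := ℓ) (Z := Z) hN0 hdvd cf mf uf
      (fun x hx => hf x hx) c u
    calc ‖bc c u‖ ≤ ∑ x ∈ (Pc c).filter (fun x => uf x = u), ‖cfG g ℓ Z x‖ := norm_sum_le _ _
      _ ≤ ∑ x ∈ (Pc c).filter (fun x => uf x = u), 1 / ((c : ℝ) ^ 2 * nm u) := by
          apply sum_le_sum
          intro x hx
          rw [hPc, mem_filter, mem_filter] at hx
          obtain ⟨⟨hx1, hx2⟩, hx3⟩ := hx
          obtain ⟨n1, n2, n3, n4, n5, n6⟩ := hnum x hx1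
          unfold cfG
          rw [norm_div, Complex.norm_natCast, ← hx2, ← hx3, ← n4]
          have h1 := coef_norm hb Z x.2
          calc _ ≤ (1 / (nm x.2 : ℝ)) / ((∏ i, x.1 i : ℕ) : ℝ) := by gcongr
            _ = _ := by
              rw [div_div, mul_comm]
      _ = (((Pc c).filter (fun x => uf x = u)).card : ℝ) / ((c : ℝ) ^ 2 * nm u) := by
          rw [sum_const, nsmul_eq_mul]
          ring
      _ ≤ _ := by
          apply div_le_div_of_nonneg_right _ hden.le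
          exact_mod_cast hcount
  -- the large sieve for one piece
  set E : ℝ := C₁ * (K + M₁) * ((ℓ.factorial : ℝ) ^ 2 / M₀ *
    (C₂ * (1 + Real.log (M₁ / M₀)) * Real.exp 4 ^ 3)) with hE
  have hlog0 : 0 ≤ Real.log (M₁ / M₀) := Real.log_nonneg (by rwa [le_div_iff₀ hM0p, one_mul])
  have hE0 : 0 ≤ E := by positivity
  have hpiece : ∀ c ∈ N.divisors, ∑ k ∈ FK K, ‖DPG (tc c) (bc c) k‖ ^ 2 ≤ E / (c : ℝ) ^ 2 := by
    intro c hc
    have hcpos : 0 < (c : ℝ) := by exact_mod_cast Nat.pos_of_mem_divisors hc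
    have hc1 : 1 ≤ (c : ℝ) := by exact_mod_cast Nat.pos_of_mem_divisors hc
    have h1 := hls M₁ K (tc c) (bc c) hM11 hK (by
      intro u hu
      obtain ⟨m1, m2, m3, m4⟩ := hmem c u hu
      refine ⟨m2, ?_⟩
      have hn0 : (0 : ℝ) ≤ nm u := Nat.cast_nonneg _
      nlinarith [one_le_pow₀ (n := 2) hc1])
    have h2 := htau N (M₀ / (c : ℝ) ^ 2) (M₁ / (c : ℝ) ^ 2) (tc c) hN0 hN4 (by positivity)
      (by gcongr) (by
        intro u hu
        obtain ⟨m1, m2, m3, m4⟩ := hmem c u hu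
        refine ⟨prim_ne_zero m2, ?_, ?_⟩
        · rw [div_le_iff₀ (by positivity)]; linarith
        · rw [le_div_iff₀ (by positivity)]; linarith)
    have h3 : M₁ / (c : ℝ) ^ 2 / (M₀ / (c : ℝ) ^ 2) = M₁ / M₀ := by
      field_simp
    rw [h3] at h2
    have h4 : ∑ u ∈ tc c, ‖bc c u‖ ^ 2 ≤ ((ℓ.factorial : ℝ) ^ 2 / M₀ / (c : ℝ) ^ 2) *
        ∑ u ∈ tc c, (tauG N u : ℝ) ^ 2 / (nm u : ℝ) := by
      rw [mul_sum]
      apply sum_le_sum
      intro u hu
      obtain ⟨m1, m2, m3, m4⟩ := hmem c u hu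
      have hu0 : (0 : ℝ) < nm u := nm_posR (prim_ne_zero m2)
      calc ‖bc c u‖ ^ 2 ≤ ((ℓ.factorial : ℝ) * tauG N u / ((c : ℝ) ^ 2 * nm u)) ^ 2 := by
            gcongr
            exact hcoef c u hu
        _ = ((ℓ.factorial : ℝ) ^ 2 * (tauG N u : ℝ) ^ 2 / ((c : ℝ) ^ 2 * nm u)) *
            (1 / ((c : ℝ) ^ 2 * nm u)) := by
            field_simp
        _ ≤ ((ℓ.factorial : ℝ) ^ 2 * (tauG N u : ℝ) ^ 2 / ((c : ℝ) ^ 2 * nm u)) * (1 / M₀) := by
            gcongr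
        _ = _ := by
            field_simp
    calc _ ≤ _ := h1
      _ ≤ C₁ * (K + M₁) * (((ℓ.factorial : ℝ) ^ 2 / M₀ / (c : ℝ) ^ 2) *
          (C₂ * (1 + Real.log (M₁ / M₀)) * Real.exp 4 ^ 3)) := by
          apply mul_le_mul_of_nonneg_left _ (by positivity)
          refine le_trans h4 ?_
          apply mul_le_mul_of_nonneg_left _ (by positivity)
          refine le_trans h2 ?_
          apply mul_le_mul_of_nonneg_left _ (by positivity)
          exact pow_le_pow_left₀ hsig0 hsig 3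
      _ = E / (c : ℝ) ^ 2 := by
          rw [hE]
          ring
  -- Cauchy-Schwarz over the contents
  have hCS : ∀ k : ℤ, ‖∑ c ∈ N.divisors, DPG (tc c) (bc c) k‖ ^ 2 ≤
      (∑ c ∈ N.divisors, 1 / (c : ℝ)) * ∑ c ∈ N.divisors, (c : ℝ) * ‖DPG (tc c) (bc c) k‖ ^ 2 := by
    intro k
    exact cs_div N.divisors (fun c hc => Nat.pos_of_mem_divisors hc)
      (fun c => DPG (tc c) (bc c) k)
  have htotal : ∑ k ∈ FK K, ‖PG H r k ^ ℓ * GA g Z k‖ ^ 2 ≤ Real.exp 4 ^ 2 * E := by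
    calc ∑ k ∈ FK K, ‖PG H r k ^ ℓ * GA g Z k‖ ^ 2
        = ∑ k ∈ FK K, ‖∑ c ∈ N.divisors, DPG (tc c) (bc c) k‖ ^ 2 := by
          apply sum_congr rfl
          intro k _
          rw [hpieces]
      _ ≤ ∑ k ∈ FK K, (∑ c ∈ N.divisors, 1 / (c : ℝ)) *
          ∑ c ∈ N.divisors, (c : ℝ) * ‖DPG (tc c) (bc c) k‖ ^ 2 := sum_le_sum fun k _ => hCS k
      _ = (∑ c ∈ N.divisors, 1 / (c : ℝ)) *
          ∑ c ∈ N.divisors, (c : ℝ) * ∑ k ∈ FK K, ‖DPG (tc c) (bc c) k‖ ^ 2 := by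
          rw [← mul_sum, sum_comm]
          simp only [mul_sum]
      _ ≤ (∑ c ∈ N.divisors, 1 / (c : ℝ)) * ∑ c ∈ N.divisors, (c : ℝ) * (E / (c : ℝ) ^ 2) := by
          apply mul_le_mul_of_nonneg_left _ hsig0
          apply sum_le_sum
          intro c hc
          exact mul_le_mul_of_nonneg_left (hpiece c hc) (by positivity)
      _ = (∑ c ∈ N.divisors, 1 / (c : ℝ)) ^ 2 * E := by
          rw [pow_two, mul_assoc, sum_mul N.divisors _ E]
          congr 1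
          apply sum_congr rfl
          intro c hc
          have hcpos : 0 < (c : ℝ) := by exact_mod_cast Nat.pos_of_mem_divisors hc
          field_simp
      _ ≤ Real.exp 4 ^ 2 * E := by
          apply mul_le_mul_of_nonneg_right _ hE0
          exact pow_le_pow_left₀ hsig0 hsig 2
  refine le_trans htotal ?_
  -- numerical bound
  have hℓH : (ℓ : ℝ) / H ≤ ℓ := div_le_self (Nat.cast_nonneg _) hH1
  have hratio : (K + M₁) / M₀ ≤ 2 * (e ^ 2 * e ^ ℓ) := by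
    rw [div_le_iff₀ hM0p]
    have h1 : M₁ ≤ M₀ * (e ^ 2 * e ^ ℓ) := by
      rw [hM1eq]
      have : Real.exp ((ℓ : ℝ) / H) ≤ e ^ ℓ := by
        rw [he, ← Real.exp_nat_mul, mul_one]
        exact Real.exp_le_exp.2 hℓH
      gcongr
    have h2 : (K : ℝ) ≤ M₀ * (e ^ 2 * e ^ ℓ) := by
      have h3 : e ≤ e ^ 2 * e ^ ℓ := by
        have h4 : 1 ≤ e ^ ℓ := one_le_pow₀ he1
        nlinarith
      calc (K : ℝ) ≤ e * M₀ := hKM
        _ ≤ (e ^ 2 * e ^ ℓ) * M₀ := by gcongr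
        _ = _ := by ring
    linarith
  have hlogb : 1 + Real.log (M₁ / M₀) ≤ 3 * 2 ^ ℓ := by
    have h1 : M₁ / M₀ = e ^ 2 * Real.exp ((ℓ : ℝ) / H) := by
      rw [hM1eq]
      field_simp
    rw [h1, Real.log_mul (by positivity) (by positivity), Real.log_exp, Real.log_pow, he,
      Real.log_exp]
    have h2 : (ℓ : ℝ) + 1 ≤ 2 ^ ℓ := by
      have := Nat.lt_two_pow_self (n := ℓ)
      exact_mod_cast this
    have h3 : (1 : ℝ) ≤ 2 ^ ℓ := one_le_pow₀ one_le_two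
    push_cast
    linarith
  have hE2 : Real.exp 4 ^ 2 * E ≤ B₀ * (2 * e) ^ ℓ * (ℓ.factorial : ℝ) ^ 2 := by
    have h1 : Real.exp 4 ^ 2 * E = Real.exp 4 ^ 5 * C₁ * C₂ * ((K + M₁) / M₀) *
        (1 + Real.log (M₁ / M₀)) * (ℓ.factorial : ℝ) ^ 2 := by
      rw [hE]
      field_simp
    rw [h1]
    have hexp2 : Real.exp 2 = e ^ 2 := by
      rw [he, ← Real.exp_nat_mul]
      norm_num
    calc _ ≤ Real.exp 4 ^ 5 * C₁ * C₂ * (2 * (e ^ 2 * e ^ ℓ)) * (3 * 2 ^ ℓ) *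
          (ℓ.factorial : ℝ) ^ 2 := by gcongr
      _ = B₀ * (2 * e) ^ ℓ * (ℓ.factorial : ℝ) ^ 2 := by
          rw [hB0, hexp2, mul_pow]
          ring
  refine le_trans hE2 ?_
  apply mul_le_mul_of_nonneg_right _ (by positivity)
  rw [pow_succ, mul_comm (C ^ ℓ)]
  have h1 : (2 * e) ^ ℓ ≤ C ^ ℓ := pow_le_pow_left₀ (by positivity) hCe ℓ
  have h2 : 0 ≤ B₀ := by positivity
  calc B₀ * (2 * e) ^ ℓ ≤ C * (2 * e) ^ ℓ := by gcongr
    _ ≤ C * C ^ ℓ := by gcongr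

end Pool.Agent.W45.GM
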